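import Pool.Agent.H607R3.PS.Stmts

/-!
Task GradeP of project H607-PS (by helper857).
-/

set_option autoImplicit false

namespace Pool.Agent.H607R3.PS

namespace GradePAux

open RR IsLocalRing

variable {T : Type} [CommRing T] {α β γ : T}

/-- augmentation -/
def aug : RR T α β γ →+* T where
  toFun u := u.a
  map_one' := rfl
  map_zero' := rfl
  map_mul' _ _ := rfl
  map_add' _ _ := rfl

variable (T α β γ) in
/-- on power series -/
noncomputable def phi0 : PowerSeries (RR T α β γ) →+* T ⧸ (Ideal.span {α, β} : Ideal T) :=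
  ((Ideal.Quotient.mk _).comp aug).comp (PowerSeries.constantCoeff)

theorem phi0_rel (a : PowerSeries (RR T α β γ))
    (ha : a ∈ (Ideal.span {PowerSeries.C (s : RR T α β γ) * PowerSeries.X} :
      Ideal (PowerSeries (RR T α β γ)))) : phi0 T α β γ a = 0 := by
  obtain ⟨b, rfl⟩ := Ideal.mem_span_singleton'.1 ha
  simp [phi0]

variable (T α β γ) in
/-- on the second ring -/
noncomputable def phi : RP T α β γ →+* T ⧸ (Ideal.span {α, β} : Ideal T) :=
  Ideal.Quotient.lift _ (phi0 T α β γ) phi0_rel

theorem phi_mk (F : PowerSeries (RR T α β γ)) :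
    phi T α β γ (Ideal.Quotient.mk _ F) =
      Ideal.Quotient.mk _ (PowerSeries.constantCoeff F).a := rfl

theorem phi_toRP (u : RR T α β γ) :
    phi T α β γ (toRP u) = Ideal.Quotient.mk _ u.a := by
  have h : phi T α β γ (toRP u) = Ideal.Quotient.mk _ (PowerSeries.constantCoeff
    (PowerSeries.C u : PowerSeries (RR T α β γ))).a := rfl
  rw [h, PowerSeries.constantCoeff_C]

theorem phi_x : phi T α β γ (toRP x) = 0 := by
  rw [phi_toRP]; simp [x]

theorem phi_w : phi T α β γ (toRP w) = 0 := by
  rw [phi_toRP]; simp [w]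

theorem phi_y : phi T α β γ (toRP y) = 0 := by
  rw [phi_toRP, Ideal.Quotient.eq_zero_iff_mem]
  simp only [y]
  exact neg_mem (Ideal.subset_span (by simp))

theorem phi_z : phi T α β γ (toRP z) = 0 := by
  rw [phi_toRP, Ideal.Quotient.eq_zero_iff_mem]
  simp only [z]
  exact Ideal.subset_span (by simp)

theorem cP_le : cP T α β γ ≤ RingHom.ker (phi T α β γ) := by
  unfold cP cI
  rw [Ideal.span_le]
  rintro _ ⟨i, rfl⟩
  rw [SetLike.mem_coe, RingHom.mem_ker]
  fin_cases i <;> simp [gens, phi_x, phi_w, phi_y, phi_z]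

/-- the localisation has dimension at most two -/
theorem dim_le [IsNoetherianRing T] (hp : (RingHom.ker (phi T α β γ)).IsPrime)
    (hγ : γ ∉ (Ideal.span {α, β} : Ideal T)) :
    ringKrullDim (Localization.AtPrime (RingHom.ker (phi T α β γ))) ≤ 2 := by
  set q := RingHom.ker (phi T α β γ) with hq
  set S := Localization.AtPrime q
  let alg : RP T α β γ →+* S := algebraMap (RP T α β γ) S
  have hs : IsUnit (alg (toRP s)) := by
    apply IsLocalization.map_units S (⟨toRP s, ?_⟩ : q.primeCompl)
    intro h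
    rw [SetLike.mem_coe, hq, RingHom.mem_ker, phi_toRP, Ideal.Quotient.eq_zero_iff_mem] at h
    exact hγ (by simpa [s] using h)
  have hx : alg (toRP x) = 0 := by
    have : alg (toRP x) * alg (toRP s) = 0 := by
      rw [← map_mul, ← map_mul, xs, map_zero, map_zero]
    exact (hs.mul_left_eq_zero).1 this
  have hw : alg (toRP w) = 0 := by
    have : alg (toRP w) * alg (toRP s) = 0 := by
      rw [← map_mul, ← map_mul, ws, map_zero, map_zero]
    exact (hs.mul_left_eq_zero).1 this
  have ht : alg (Ideal.Quotient.mk _ PowerSeries.X) = 0 := by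
    have h0 : (toRP (s : RR T α β γ) : RP T α β γ) * Ideal.Quotient.mk _ PowerSeries.X = 0 := by
      have : (toRP (s : RR T α β γ) : RP T α β γ) =
        Ideal.Quotient.mk _ (PowerSeries.C (s : RR T α β γ)) := rfl
      rw [this, ← map_mul, Ideal.Quotient.eq_zero_iff_mem]
      exact Ideal.subset_span rfl
    have : alg (toRP s) * alg (Ideal.Quotient.mk _ PowerSeries.X) = 0 := by
      rw [← map_mul, h0, map_zero]
    exact (hs.mul_right_eq_zero).1 this
  have hu : ∀ u : RR T α β γ, alg (toRP u) = alg (toRP (emb u.a)) := by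
    intro u
    conv_lhs => rw [decomp u]
    simp only [map_add, map_mul, hx, hw, mul_zero, add_zero]
  have hf : ∀ F : PowerSeries (RR T α β γ), alg (Ideal.Quotient.mk _ F) =
      alg (toRP (emb (PowerSeries.constantCoeff F).a)) := by
    intro F
    have h1 : (PowerSeries.X : PowerSeries (RR T α β γ)) ∣
        F - PowerSeries.C (PowerSeries.constantCoeff F) := by
      rw [PowerSeries.X_dvd_iff]
      simp
    obtain ⟨G, hG⟩ := h1
    have h2 : F = PowerSeries.C (PowerSeries.constantCoeff F) + PowerSeries.X * G := by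
      rw [← hG]; ring
    have h3 : alg (Ideal.Quotient.mk _ F) =
        alg (Ideal.Quotient.mk _ (PowerSeries.C (PowerSeries.constantCoeff F))) := by
      conv_lhs => rw [h2]
      rw [map_add, map_add, map_mul, map_mul, ht, zero_mul, add_zero]
    rw [h3]
    exact hu _
  have hmax : maximalIdeal S = Ideal.span {alg (toRP (emb α)), alg (toRP (emb β))} := by
    apply le_antisymm
    · rw [← IsLocalization.AtPrime.map_eq_maximalIdeal q S, Ideal.map_le_iff_le_comap]
      intro f hfq
      obtain ⟨F, rfl⟩ := Ideal.Quotient.mk_surjective f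
      rw [hq, RingHom.mem_ker, phi_mk, Ideal.Quotient.eq_zero_iff_mem] at hfq
      obtain ⟨p, r, hpr⟩ := Ideal.mem_span_pair.1 hfq
      rw [Ideal.mem_comap]
      change alg (Ideal.Quotient.mk _ F) ∈ _
      rw [hf F, ← hpr, Ideal.mem_span_pair]
      exact ⟨alg (toRP (emb p)), alg (toRP (emb r)), by simp only [map_add, map_mul]⟩
    · rw [Ideal.span_le]
      have hm : ∀ t : T, t ∈ (Ideal.span {α, β} : Ideal T) →
          alg (toRP (emb t)) ∈ maximalIdeal S := by
        intro t ht'
        refine (IsLocalization.AtPrime.to_map_mem_maximal_iff S q _).2 ?_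
        rw [hq, RingHom.mem_ker, phi_toRP, Ideal.Quotient.eq_zero_iff_mem]
        exact ht'
      rintro _ (rfl | rfl)
      · exact hm _ (Ideal.subset_span (by simp))
      · exact hm _ (Ideal.subset_span (by simp))
  refine (ringKrullDim_le_spanFinrank_maximalIdeal S).trans ?_
  rw [hmax]
  have h5 : (Ideal.span {alg (toRP (emb α)), alg (toRP (emb β))} : Ideal S).spanFinrank ≤ 2 := by
    refine (Submodule.spanFinrank_span_le_ncard_of_finite (by simp)).trans ?_
    exact (Set.ncard_insert_le _ _).trans (by simp)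
  exact_mod_cast h5

theorem reg_contra {S : Type} [CommRing S] [IsLocalRing S] [IsNoetherianRing S] (rs : List S)
    (h : RingTheory.Sequence.IsRegular S rs) (hl : rs.length = 3) (hd : ringKrullDim S ≤ 2) :
    False := by
  have hk := ringKrullDim_add_length_eq_ringKrullDim_of_isRegular _ h
  have hnt : Nontrivial (S ⧸ Ideal.ofList rs) := by
    rw [Ideal.Quotient.nontrivial_iff]
    intro htop
    apply h.2
    rw [htop]
    simp
  have h0 := ringKrullDim_nonneg_of_nontrivial (R := S ⧸ Ideal.ofList rs)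
  rw [← hk, hl] at hd
  have h3 : (0 : WithBot ℕ∞) + ((3 : ℕ) : WithBot ℕ∞) ≤ 2 := le_trans (by gcongr) hd
  rw [zero_add] at h3
  have h4 : ((3 : ℕ∞) : WithBot ℕ∞) ≤ ((2 : ℕ∞) : WithBot ℕ∞) := h3
  rw [WithBot.coe_le_coe] at h4
  have h6 : (3 : ℕ) ≤ 2 := by exact_mod_cast h4
  omega

end GradePAux

open GradePAux RR

theorem taskGradeP : TaskGradeP := by
  intro T _ _ _ _ α β γ hB
  rintro ⟨rs, hlen, hmem, hreg⟩
  have hpr := hB.prime2
  have hdom : IsDomain (T ⧸ (Ideal.span {α, β} : Ideal T)) :=
    (Ideal.Quotient.isDomain_iff_prime _).2 hpr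
  have hp : (RingHom.ker (phi T α β γ)).IsPrime := RingHom.ker_isPrime _
  have hd := dim_le hp hB.notMem
  have hR := hreg.isRegular_of_isLocalization_of_mem
    (Localization.AtPrime (RingHom.ker (phi T α β γ))) (RingHom.ker (phi T α β γ))
    (fun r hr => cP_le (hmem r hr))
  exact reg_contra _ hR (by simpa using hlen) hd

end Pool.Agent.H607R3.PS
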